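import Pool.Agent.V2450.Colmez.Aff

/-!
# Colmez's product formula: a criterion in terms of the Galois group

Let `K` be a CM field which is Galois over `ℚ`, with group `G`, and let `c` be the complex
conjugation, a central element of `G`. The CM fields `E` contained in `K` are the fixed fields of the
subgroups `H` which do not contain `c`; `G ⧸ H` is the set of the embeddings of `E`.

* `IsCMType c H Φ`: the set `Φ` of embeddings of `E` is a CM type.
* `a0 H ψ Φ` is the class function `a⁰` of the problem.
* A structure `D : Sides G` consists of the numbers `D.ht H ψ Φ = ht (E, ψ, Φ)` and of a linear map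
  `D.Z` on the functions on `G` which extends the map `a ↦ Z^∞ (a^*, 0)` on the class functions `a`
  such that `a (g) + a (c g)` does not depend on `g`; Colmez's formula for `(E, ψ, Φ)` is
  `D.ht H ψ Φ = D.Z (a0 H ψ Φ)`.
* `IsKnown D c` lists the facts which are known: `ht (E, ψ, Φ)` is a linear function of `a⁰`
  (Colmez), `ht (E, ψ, Φ) + ht (E, c ψ, Φ) = log (2 π) = Z^∞ (1, 0)` (this is clear from the
  definition), the formula for the fields `E` which are abelian over `ℚ` (Colmez, Obus), and the
  formula on average over the CM types of a given field `E` and the `ψ ∈ Φ` (Andreatta, Goren, Howard,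
  Madapusi Pera; Yuan, Zhang).
* `Split a`: `a` is the sum of a function which factors through the abelianization of `G` and of a
  function which has the same value at `x` and `y` if the cyclic subgroups generated by `x` and `y`
  are conjugate.
* `Good c`: if `x` and `y` generate the same subgroup, then `x` and `y` are conjugate, or `x` is
  conjugate to `c x` and `y` to `c y`, or the conjugacy classes of `x` and `y` are cosets of the
  commutator subgroup. (For example: all the irreducible characters of `G` have rational values, or
  `G` is abelian.)
* `Gp F` is the product of the group with two elements and the group of the affine maps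
  `z ↦ u z + a` of the finite field `F`, and `cc F` is the nontrivial element of the first factor.
-/

set_option autoImplicit false

namespace Pool.Agent.Results.MP_a2beea_nt.GaloisGroupCriterion

universe u

open Pool.Agent.V2450.Colmez

/-- (1) Colmez's formula is true for `(E, ψ, Φ)` if the class function `a⁰` splits; and this is the
only case in which it is a formal consequence of the facts listed above. (2) If the Galois group of
`K` over `ℚ` satisfies the condition `Good c`, Colmez's formula is true for all the CM fields `E`
contained in `K`, all the CM types `Φ` of `E` and all `ψ`. (3) This is the case if this Galois group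
is the product of the group generated by `c` and of the group of the affine maps of a finite
field. -/
theorem result :
    (∀ (G : Type u) [Group G] [Fintype G] (c : G), c * c = 1 → (∀ g : G, c * g = g * c) →
      (∀ (H : Subgroup G) (ψ : G ⧸ H) (Φ : Finset (G ⧸ H)), IsCMType c H Φ →
        ((∀ D : Sides G, IsKnown D c → D.ht H ψ Φ = D.Z (a0 H ψ Φ)) ↔ Split (a0 H ψ Φ))) ∧
      (Good c → ∀ D : Sides G, IsKnown D c →
        ∀ (H : Subgroup G) (ψ : G ⧸ H) (Φ : Finset (G ⧸ H)), IsCMType c H Φ →
          D.ht H ψ Φ = D.Z (a0 H ψ Φ))) ∧
    (∀ (F : Type u) [Field F] [Fintype F] (D : Sides (Gp F)), IsKnown D (cc F) →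
      ∀ (H : Subgroup (Gp F)) (ψ : Gp F ⧸ H) (Φ : Finset (Gp F ⧸ H)), IsCMType (cc F) H Φ →
        D.ht H ψ Φ = D.Z (a0 H ψ Φ)) := by
  refine ⟨?_, ?_⟩
  · intro G _ _ c hc2 hcc
    refine ⟨?_, ?_⟩
    · intro H ψ Φ hΦ
      constructor
      · intro h
        by_contra hcon
        obtain ⟨D, hD, hne⟩ := sharp hc2 hcc hcon
        exact hne (h D hD)
      · rintro ⟨f1, f2, hf, h1, h2⟩ D hD
        exact formula_of_split hD hc2 hcc hΦ hf h1 h2
    · intro hG D hD H ψ Φ hΦ
      exact formula_of_good hD hc2 hcc hG hΦ
  · intro F _ _ D hD H ψ Φ hΦ
    exact formula_of_good hD cc_sq cc_comm good_aff hΦ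

end Pool.Agent.Results.MP_a2beea_nt.GaloisGroupCriterion
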